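import Pool.Agent.Helper29.BL.GoalsA
import Pool.Agent.Helper29.BL.GoalsB
import Pool.Agent.Helper29.BL.GoalsC
import Pool.Agent.Helper29.BL.GoalsD
import Pool.Agent.Helper29.BL.PS

/-!
# Project BL (MP_a41896_nt), packet CRV: the curve of GEO is stable
-/

set_option autoImplicit false

namespace Pool.Agent.Helper59.BL

open Pool.Agent.Helper29.BL
open WeierstrassCurve Height Height.AdmissibleAbsValues Polynomial
open scoped Polynomial.Bivariate

noncomputable section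

section poly

variable {K : Type} [Field K] {Φ : K[X][Y]}

theorem ev_mul (F G : K[X][Y]) (p : K × K) : ev (F * G) p = ev F p * ev G p := by
  simp [ev, evalEval_mul]

theorem eq_fst (hΦ : Irreducible Φ) (h0 : Φ.natDegree = 0) {p q : K × K} (hp : ev Φ p = 0)
    (hq : ev Φ q = 0) : q.1 = p.1 := by
  obtain ⟨f, rfl⟩ : ∃ f : K[X], Φ = C f := ⟨Φ.coeff 0, eq_C_of_natDegree_eq_zero h0⟩
  have e : ∀ (f : K[X]) (r : K × K), ev (C f : K[X][Y]) r = f.eval r.1 := by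
    intro f r
    simp [ev, evalEval]
  rw [e] at hp
  have hd : (C (X - C p.1 : K[X]) : K[X][Y]) ∣ C f := map_dvd C (dvd_iff_isRoot.2 hp)
  have hpr : Irreducible (C (X - C p.1 : K[X]) : K[X][Y]) :=
    (prime_C_iff.2 (prime_X_sub_C p.1)).irreducible
  obtain ⟨g, hg⟩ := (hpr.dvd_comm hΦ).1 hd
  have h1 := congrArg (fun F : K[X][Y] => ev F q) hg
  simp only [ev_mul, hq, zero_mul, e, eval_sub, eval_X, eval_C] at h1
  exact sub_eq_zero.1 h1

theorem eq_snd (hΦ : Irreducible Φ) (h0 : ∀ j, (Φ.coeff j).natDegree = 0) {p q : K × K}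
    (hp : ev Φ p = 0) (hq : ev Φ q = 0) : q.2 = p.2 := by
  have hmap : Φ = (Φ.map (evalRingHom (0 : K))).map C := by
    ext1 j
    rw [coeff_map, coeff_map, coe_evalRingHom, ← coeff_zero_eq_eval_zero]
    exact eq_C_of_natDegree_eq_zero (h0 j)
  set f := Φ.map (evalRingHom (0 : K)) with hf
  have he : ∀ b : K, Φ.eval (C b) = C (f.eval b) := by
    intro b
    conv_lhs => rw [hmap]
    rw [eval_map, eval₂_at_apply]
  have hroot : Φ.IsRoot (C p.2) := by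
    have h1 : ev Φ p = f.eval p.2 := by
      rw [ev, evalEval, he, eval_C]
    rw [IsRoot.def, he, ← h1, hp, C_0]
  have hd : (X - C (C p.2) : K[X][Y]) ∣ Φ := dvd_iff_isRoot.2 hroot
  have hpr : Irreducible (X - C (C p.2) : K[X][Y]) := (prime_X_sub_C (C p.2)).irreducible
  obtain ⟨g, hg⟩ := (hpr.dvd_comm hΦ).1 hd
  have h1 := congrArg (fun F : K[X][Y] => ev F q) hg
  have h2 : ev (X - C (C p.2) : K[X][Y]) q = q.2 - p.2 := by
    simp [ev, evalEval]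
  simp only [ev_mul, hq, zero_mul, h2] at h1
  exact sub_eq_zero.1 h1

end poly

theorem NT.aff {K : Type} [Field K] [DecidableEq K] {W₁ W₂ : Affine K} {z : W₁.Point × W₂.Point}
    (h : NT z) : Aff z := by
  refine ⟨fun h0 => h.1 1 one_pos ?_, fun h0 => h.2 1 one_pos ?_⟩
  · rw [h0, smul_zero]
  · rw [h0, smul_zero]

/-- Three points with pairwise different images under the group law cannot have the same
`x`-coordinates. -/
theorem three {K : Type} [Field K] [DecidableEq K] (hX : XEQ) {W : Affine K} {P Q R : W.Point}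
    (hP : P ≠ 0) (hQ : Q ≠ 0) (hR : R ≠ 0) (h1 : xc Q = xc P) (h2 : xc R = xc P) (hPQ : P ≠ Q)
    (hPR : P ≠ R) (hQR : Q ≠ R) : False := by
  have hx := (hX K W).1
  rcases (hx Q P hQ hP).1 h1 with h | h
  · exact hPQ h.symm
  · rcases (hx R P hR hP).1 h2 with h' | h'
    · exact hPR h'.symm
    · exact hQR (h.trans h'.symm)

theorem arith {N2 L2 V2 C c A κ : ℝ} (hC : 0 ≤ C) (hc : 0 ≤ c) (hA : A = 2 * C + C * (4 * c + 1) + 2 * c)
    (hκ : κ = A + 2) (hL : κ ^ 2 * L2 ≤ N2) (hV : κ ^ 2 * V2 ≤ N2) (hK : κ ^ 2 ≤ N2)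
    (h : N2 ≤ C * (L2 + 2 * c + (V2 + 2 * c) + 1) + 2 * c) : False := by
  have hA0 : 0 ≤ A := by rw [hA]; positivity
  have hκ0 : 0 < κ := by rw [hκ]; linarith
  have hκ2 : 0 < κ ^ 2 := by positivity
  have hN : 0 < N2 := lt_of_lt_of_le hκ2 hK
  have h1 : κ ^ 2 * N2 ≤ C * (N2 + N2) + (C * (4 * c + 1) + 2 * c) * N2 := by
    calc κ ^ 2 * N2 ≤ κ ^ 2 * (C * (L2 + 2 * c + (V2 + 2 * c) + 1) + 2 * c) :=
          mul_le_mul_of_nonneg_left h hκ2.le
      _ = C * (κ ^ 2 * L2 + κ ^ 2 * V2) + (C * (4 * c + 1) + 2 * c) * κ ^ 2 := by ring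
      _ ≤ C * (N2 + N2) + (C * (4 * c + 1) + 2 * c) * N2 := by
          have h2 : C * (κ ^ 2 * L2 + κ ^ 2 * V2) ≤ C * (N2 + N2) :=
            mul_le_mul_of_nonneg_left (by linarith) hC
          have h3 : (C * (4 * c + 1) + 2 * c) * κ ^ 2 ≤ (C * (4 * c + 1) + 2 * c) * N2 :=
            mul_le_mul_of_nonneg_left hK (by positivity)
          linarith
  have h2 : κ ^ 2 * N2 ≤ A * N2 := by
    rw [hA]; linarith
  have h3 : κ ^ 2 ≤ A := le_of_mul_le_mul_right h2 hN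
  have h4 : A < κ ^ 2 := by rw [hκ]; nlinarith
  linarith

theorem crv_of : GEO → GP → XEQ → QSN → CRV := by
  intro hG hP hX hQ K _ _ _ W₁ W₂ _ _ H₁ H₂ c₀ hH₁ hH₂ d hd
  obtain ⟨m, t, hgeo⟩ := hG K W₁ W₂ H₁ H₂ c₀ hH₁ hH₂ d hd
  obtain ⟨C, hC0, hgp⟩ := hP K W₁ W₂ m
  refine ⟨m, t, fun q => ?_⟩
  obtain ⟨ε, hε, T₀, R1, hR1, hT⟩ := hgeo (max (2 * m ^ 3 + 1) (max q 3))
  have hc : 0 ≤ c₀ := (abs_nonneg _).trans (hH₁.near 0)
  set A : ℝ := 2 * C + C * (4 * c₀ + 1) + 2 * c₀ with hA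
  have hA0 : 0 ≤ A := by rw [hA]; positivity
  refine ⟨ε, hε, T₀, R1, A + 2, A + 2, hR1, by linarith, by linarith, ?_⟩
  intro T hTT B hB x Tc hch
  obtain ⟨i, j, S, S', Φ, hij, hS, hS', hcS, hcS', hirr, hBD, hz, hz', hd1, hd2⟩ :=
    hT T hTT B hB (A + 2) (A + 2) (by linarith) (by linarith) x Tc hch
  have hn : ∀ z : W₁.Point × W₂.Point, hh z ≤ H₁ z.1 + H₂ z.2 + 2 * c₀ ∧
      H₁ z.1 + H₂ z.2 ≤ hh z + 2 * c₀ := by
    intro z
    have h1 := abs_le.1 (hH₁.near z.1)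
    have h2 := abs_le.1 (hH₂.near z.2)
    have h3 : hh z = hx z.1 + hx z.2 := rfl
    constructor <;> linarith [h1.1, h1.2, h2.1, h2.2]
  have hnn : ∀ z : W₁.Point × W₂.Point, 0 ≤ H₁ z.1 + H₂ z.2 := fun z =>
    add_nonneg (hH₁.quad.nonneg _) (hH₂.quad.nonneg _)
  -- squares of the norm inequalities
  have hsq : ∀ y z : W₁.Point × W₂.Point,
      (A + 2) * √(H₁ y.1 + H₂ y.2) ≤ √(H₁ z.1 + H₂ z.2) →
      (A + 2) ^ 2 * (H₁ y.1 + H₂ y.2) ≤ H₁ z.1 + H₂ z.2 := by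
    intro y z h
    have h1 := mul_self_le_mul_self (by positivity) h
    rw [Real.mul_self_sqrt (hnn z)] at h1
    have h2 := Real.mul_self_sqrt (hnn y)
    calc (A + 2) ^ 2 * (H₁ y.1 + H₂ y.2)
        = (A + 2) ^ 2 * (√(H₁ y.1 + H₂ y.2) * √(H₁ y.1 + H₂ y.2)) := by rw [h2]
      _ = (A + 2) * √(H₁ y.1 + H₂ y.2) * ((A + 2) * √(H₁ y.1 + H₂ y.2)) := by ring
      _ ≤ _ := h1
  have hstab : ∀ z ∈ S', ∀ z' ∈ S', z ≠ z' → NT (z - z') ∧
      Φ ∣ Tr W₁ W₂ m Φ (xc (z - z').1) (xc (z - z').2) := by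
    intro z hzS z' hzS' hne
    refine ⟨(hd2 z hzS z' hzS' hne).1, ?_⟩
    by_contra hnd
    set N2 : ℝ := H₁ (x - z).1 + H₂ (x - z).2 with hN2
    have hκ2 : (0 : ℝ) < (A + 2) ^ 2 := by positivity
    -- the points of `S`
    have hSb : ∀ y ∈ S, (A + 2) ^ 2 * (H₁ (x - y).1 + H₂ (x - y).2) ≤ N2 := fun y hy =>
      hsq _ _ (hch.sep i j hij y (hS hy) z (hS' hzS))
    set Hb : ℝ := N2 / (A + 2) ^ 2 + 2 * c₀ with hHb
    have hHb0 : 0 ≤ Hb := by
      have := hnn (x - z)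
      positivity
    classical
    have hcard : (S.image fun y => kap (x - y)).card = S.card :=
      Finset.card_image_of_injOn fun y hy y' hy' h => by
        by_contra hyy
        exact (hd1 y hy y' hy' hyy).2 h
    have hgp' := hgp Φ hirr hBD (S.image fun y => kap (x - y)) Hb hHb0 ?_ ?_ (x - z) (z - z')
      (NT.aff (hz' z hzS).1) (NT.aff (hd2 z hzS z' hzS' hne).1)
      (by rw [sub_add_sub_cancel]; exact NT.aff (hz' z' hzS').1) (hz' z hzS).2
      (by rw [sub_add_sub_cancel]; exact (hz' z' hzS').2) hnd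
    · have h1 := (hn (x - z)).2
      have h2 := (hn (z - z')).1
      have hV := hsq _ _ (hch.clust j z (hS' hzS) z' (hS' hzS') z (hS' hzS))
      have hK : (A + 2) ^ 2 ≤ N2 := by
        have h3 := hch.far j z (hS' hzS)
        have h4 := mul_self_le_mul_self (by positivity) h3
        rw [Real.mul_self_sqrt (hnn (x - z))] at h4
        calc (A + 2) ^ 2 = (A + 2) * (A + 2) := by ring
          _ ≤ _ := h4
      have hL : (A + 2) ^ 2 * (N2 / (A + 2) ^ 2) ≤ N2 := by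
        rw [mul_div_cancel₀ _ hκ2.ne']
      refine arith (N2 := N2) (L2 := N2 / (A + 2) ^ 2) (V2 := H₁ (z - z').1 + H₂ (z - z').2) hC0 hc hA
        rfl hL hV hK ?_
      have h5 : C * (Hb + hh (z - z') + 1) ≤
          C * (N2 / (A + 2) ^ 2 + 2 * c₀ + (H₁ (z - z').1 + H₂ (z - z').2 + 2 * c₀) + 1) :=
        mul_le_mul_of_nonneg_left (by rw [hHb]; linarith) hC0
      linarith
    · intro p hp
      obtain ⟨y, hy, rfl⟩ := Finset.mem_image.1 hp
      refine ⟨?_, (hz y hy).2⟩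
      have h1 := (hn (x - y)).1
      have h2 := hSb y hy
      have h3 : H₁ (x - y).1 + H₂ (x - y).2 ≤ N2 / (A + 2) ^ 2 := by
        rw [le_div_iff₀ hκ2]; linarith
      have h4 : hh (x - y) = logHeight₁ (kap (x - y)).1 + logHeight₁ (kap (x - y)).2 := rfl
      rw [← h4, hHb]
      linarith
    · rw [hcard]
      have := (le_max_left (2 * m ^ 3 + 1) (max q 3)).trans hcS
      omega
  have h3 : 3 ≤ S'.card := ((le_max_right q 3).trans (le_max_right _ _)).trans hcS'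
  obtain ⟨s, hs, hs3⟩ := Finset.exists_subset_card_eq h3
  obtain ⟨z₁, z₂, z₃, h12, h13, h23, rfl⟩ := Finset.card_eq_three.1 hs3
  have m1 : z₁ ∈ S' := hs (by simp)
  have m2 : z₂ ∈ S' := hs (by simp)
  have m3 : z₃ ∈ S' := hs (by simp)
  have hne1 : ∀ z z' : W₁.Point × W₂.Point, NT (z - z') → (x - z).1 ≠ (x - z').1 := by
    intro z z' h h0
    refine (NT.aff h).1 ?_
    have h1 : x.1 - z.1 = x.1 - z'.1 := h0
    have h2 : z.1 = z'.1 := sub_right_injective h1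
    change z.1 - z'.1 = 0
    rw [h2, sub_self]
  have hne2 : ∀ z z' : W₁.Point × W₂.Point, NT (z - z') → (x - z).2 ≠ (x - z').2 := by
    intro z z' h h0
    refine (NT.aff h).2 ?_
    have h1 : x.2 - z.2 = x.2 - z'.2 := h0
    have h2 : z.2 = z'.2 := sub_right_injective h1
    change z.2 - z'.2 = 0
    rw [h2, sub_self]
  refine ⟨S', Φ, hS'.trans (hch.sub j), ((le_max_left q 3).trans (le_max_right _ _)).trans hcS', hirr,
    hBD, ⟨?_, ?_⟩, hstab⟩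
  · by_contra h0
    have h0' : Φ.natDegree = 0 := by omega
    exact three hX (NT.aff (hz' z₁ m1).1).1 (NT.aff (hz' z₂ m2).1).1 (NT.aff (hz' z₃ m3).1).1
      (eq_fst hirr h0' (hz' z₁ m1).2 (hz' z₂ m2).2) (eq_fst hirr h0' (hz' z₁ m1).2 (hz' z₃ m3).2)
      (hne1 _ _ (hd2 z₁ m1 z₂ m2 h12).1) (hne1 _ _ (hd2 z₁ m1 z₃ m3 h13).1)
      (hne1 _ _ (hd2 z₂ m2 z₃ m3 h23).1)
  · by_contra h0
    have h0' : ∀ j, (Φ.coeff j).natDegree = 0 := by
      intro j
      by_contra h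
      exact h0 ⟨j, by omega⟩
    exact three hX (NT.aff (hz' z₁ m1).1).2 (NT.aff (hz' z₂ m2).1).2 (NT.aff (hz' z₃ m3).1).2
      (eq_snd hirr h0' (hz' z₁ m1).2 (hz' z₂ m2).2) (eq_snd hirr h0' (hz' z₁ m1).2 (hz' z₃ m3).2)
      (hne2 _ _ (hd2 z₁ m1 z₂ m2 h12).1) (hne2 _ _ (hd2 z₁ m1 z₃ m3 h13).1)
      (hne2 _ _ (hd2 z₂ m2 z₃ m3 h23).1)

end

end Pool.Agent.Helper59.BL
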