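import Pool.Agent.Helper29.BL.GoalsF
import Pool.Agent.Helper29.BL.PS
import Pool.Agent.Helper58.BL.GEO
import Pool.Agent.Helper59.BL.CRV

/-!
# Project BL (MP_a41896_nt), second round, packet CRVg: GEO and CRV for height functions `GH`
-/

set_option autoImplicit false

namespace Pool.Agent.Helper59.BL

open Pool.Agent.Helper29.BL
open WeierstrassCurve Height Height.AdmissibleAbsValues Polynomial
open scoped Polynomial.Bivariate
open Pool.Agent.Helper58.BL (aff_of_nt BallH_mono)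

noncomputable section

lemma H_eq_of_xcg {K : Type} [Field K] [AdmissibleAbsValues K] [DecidableEq K] {W : Affine K}
    {H : W.Point → ℝ} {c₀ : ℝ} {e : ℕ} (hX : XEQ) (hH : GH W H c₀ e) {P Q : W.Point} (hP : P ≠ 0)
    (hQ' : Q ≠ 0) (h : xc P = xc Q) : H P = H Q := by
  rcases ((hX K W).1 P Q hP hQ').1 h with rfl | rfl
  · rfl
  · exact hH.neg Q

/-- GEO for height functions `GH`. -/
def GEOg : Prop := ∀ (K : Type) [Field K] [NumberField K] [DecidableEq K] (W₁ W₂ : Affine K)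
  (H₁ : W₁.Point → ℝ) (H₂ : W₂.Point → ℝ) (c₀ : ℝ) (e₁ e₂ : ℕ),
  GH W₁ H₁ c₀ e₁ → GH W₂ H₂ c₀ e₂ → ∀ d : ℝ, 0 < d → ∃ m t : ℕ, ∀ M₃ : ℕ,
  ∃ ε : ℝ, 0 < ε ∧ ∃ (T₀ : ℝ) (R1 : ℕ), 1 ≤ R1 ∧ ∀ T : ℝ, T₀ ≤ T →
    ∀ B : Finset (W₁.Point × W₂.Point), BallH H₁ H₂ d ε T B →
    ∀ (Kc K0 : ℝ), 2 ≤ Kc → 1 ≤ K0 → ∀ (x : W₁.Point × W₂.Point)
      (Tc : Fin t → Finset (W₁.Point × W₂.Point)),
      Chain (fun z => √(H₁ z.1 + H₂ z.2)) B t Kc K0 R1 x Tc →
    ∃ (i j : Fin t) (S S' : Finset (W₁.Point × W₂.Point)) (Φ : K[X][Y]), i < j ∧ S ⊆ Tc i ∧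
      S' ⊆ Tc j ∧ M₃ ≤ S.card ∧ M₃ ≤ S'.card ∧ Irreducible Φ ∧ BD m Φ ∧
      (∀ z ∈ S, NT (x - z) ∧ ev Φ (kap (x - z)) = 0) ∧
      (∀ z ∈ S', NT (x - z) ∧ ev Φ (kap (x - z)) = 0) ∧
      (∀ z ∈ S, ∀ z' ∈ S, z ≠ z' → NT (z - z') ∧ kap (x - z) ≠ kap (x - z')) ∧
      (∀ z ∈ S', ∀ z' ∈ S', z ≠ z' → NT (z - z') ∧ kap (x - z) ≠ kap (x - z'))

open Classical in
/-- GEO for height functions `GH`. -/
theorem geog_of : MI → ST → THINg → XEQ → GEOg := by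
  intro hMI hST hTHIN hXEQ K _ _ _ W₁ W₂ H₁ H₂ c₀ e₁ e₂ hH₁ hH₂ d hd
  obtain ⟨m, t₀, R', hST'⟩ := hST (min 1 (d / 12)) (lt_min one_pos (by positivity)) (min_le_left _ _)
  refine ⟨m, t₀ + 1, fun M₃ ↦ ?_⟩
  obtain ⟨ε₁, hε₁, T₁, R1, hR1, hT⟩ := hTHIN K W₁ W₂ H₁ H₂ c₀ e₁ e₂ hH₁ hH₂ d hd (R' + t₀ * M₃ + 1)
  obtain ⟨ε₂, hε₂, T₂, hM⟩ := hMI K W₁ W₂ (⌈min 1 (d / 12) * ((t₀ + 1 : ℕ) * (R' + t₀ * M₃ + 1 : ℕ))⌉₊)
    ((t₀ + 1) * (R' + t₀ * M₃ + 1)) d hd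
  set R2 := R' + t₀ * M₃ + 1 with hR2
  set τ := min 1 (d / 12) with hτ
  have hτ0 : 0 < τ := lt_min one_pos (by positivity)
  have hc₀ : 0 ≤ c₀ := (abs_nonneg _).trans (hH₁.near 0)
  refine ⟨min (min ε₁ (ε₂ / 2)) (d / 2), by positivity,
    max (max T₁ T₂) (max (max 1 c₀) (max (4 * c₀ / ε₂) (2 * c₀ / d + 1))), R1, hR1, ?_⟩
  intro T hT0 B hB Kc K0 hKc hK0 x Tc hch
  simp only [max_le_iff] at hT0
  obtain ⟨⟨hT1, hT2⟩, ⟨hT3, hT4⟩, hT5, hT6⟩ := hT0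
  have hTp : 0 < T := by linarith
  have hε2T : min (min ε₁ (ε₂ / 2)) (d / 2) * T + 2 * c₀ ≤ ε₂ * T := by
    have h1 : min (min ε₁ (ε₂ / 2)) (d / 2) * T ≤ ε₂ / 2 * T :=
      mul_le_mul_of_nonneg_right ((min_le_left _ _).trans (min_le_right _ _)) hTp.le
    have h2 : 4 * c₀ ≤ T * ε₂ := (div_le_iff₀ hε₂).1 hT5
    linarith
  have hεd : min (min ε₁ (ε₂ / 2)) (d / 2) * T + c₀ < d * T := by
    have h1 : min (min ε₁ (ε₂ / 2)) (d / 2) * T ≤ d / 2 * T :=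
      mul_le_mul_of_nonneg_right (min_le_right _ _) hTp.le
    have h2 : 2 * c₀ / d < T := by linarith
    have h3 : 2 * c₀ < T * d := (div_lt_iff₀ hd).1 h2
    linarith
  have hB₁ : BallH H₁ H₂ d ε₁ T B := BallH_mono hB ((min_le_left _ _).trans (min_le_left _ _)) hTp.le
  have hx := hch.x_mem
  choose T2 hT2s hT2c hT2n hT2d using fun j ↦ hT T hT1 B hB₁ x hx (Tc j) (hch.sub j) (hch.card j)
  -- heights
  have hhle : ∀ z : W₁.Point × W₂.Point, hh z ≤ H₁ z.1 + H₂ z.2 + 2 * c₀ := by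
    intro z
    have h1 := (abs_le.1 (hH₁.near z.1)).1
    have h2 := (abs_le.1 (hH₂.near z.2)).1
    unfold hh
    linarith
  have hT2B : ∀ j, ∀ z ∈ T2 j, z ∈ B := fun j z hz ↦ hch.sub j (hT2s j hz)
  -- different levels
  have hlev : ∀ i j, i < j → ∀ z ∈ T2 i, ∀ z' ∈ T2 j, kap (x - z) ≠ kap (x - z') := by
    intro i j hij z hz z' hz' he
    have hz1 := aff_of_nt (hT2n i z hz)
    have hz2 := aff_of_nt (hT2n j z' hz')
    have e1 : H₁ (x - z).1 = H₁ (x - z').1 :=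
      H_eq_of_xcg hXEQ hH₁ hz1.1 hz2.1 (congrArg Prod.fst he)
    have e2 : H₂ (x - z).2 = H₂ (x - z').2 :=
      H_eq_of_xcg hXEQ hH₂ hz1.2 hz2.2 (congrArg Prod.snd he)
    have h1 := hch.sep i j hij z (hT2s i hz) z' (hT2s j hz')
    have h2 := hch.far i z (hT2s i hz)
    rw [← e1, ← e2] at h1
    nlinarith
  have hinj : ∀ i j, ∀ z ∈ T2 i, ∀ z' ∈ T2 j, kap (x - z) = kap (x - z') → z = z' := by
    intro i j z hz z' hz' he
    rcases lt_trichotomy i j with h | h | h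
    · exact absurd he (hlev i j h z hz z' hz')
    · subst h
      by_contra hne
      exact (hT2d i z hz z' hz' hne).2 he
    · exact absurd he.symm (hlev j i h z' hz' z hz)
  set U : Finset (W₁.Point × W₂.Point) := Finset.univ.biUnion T2 with hU
  have hUmem : ∀ z, z ∈ U ↔ ∃ j, z ∈ T2 j := fun z ↦ by simp [hU]
  have hUinj : Set.InjOn (fun z ↦ kap (x - z)) (U : Set (W₁.Point × W₂.Point)) := by
    intro z hz z' hz' he
    obtain ⟨i, hi⟩ := (hUmem z).1 hz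
    obtain ⟨j, hj⟩ := (hUmem z').1 hz'
    exact hinj i j z hi z' hj he
  have hUcard : U.card ≤ (t₀ + 1) * R2 := by
    refine Finset.card_biUnion_le.trans ?_
    simp [hT2c]
  have hUB : ∀ z ∈ U, z ∈ B := fun z hz ↦ by
    obtain ⟨j, hj⟩ := (hUmem z).1 hz
    exact hT2B j z hj
  have hUn : ∀ z ∈ U, NT (x - z) := fun z hz ↦ by
    obtain ⟨j, hj⟩ := (hUmem z).1 hz
    exact hT2n j z hj
  set Ξ : Finset (K × K) := U.image (fun z ↦ kap (x - z)) with hΞ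
  have hw : ∀ p ∈ Ξ, p.1 ≠ (kap x).1 := by
    intro p hp he
    obtain ⟨z, hz, rfl⟩ := Finset.mem_image.1 hp
    have hz1 := aff_of_nt (hUn z hz)
    have hx1 := aff_of_nt (hB.nt x hx)
    have hzz := aff_of_nt (hB.nt z (hUB z hz))
    have e1 : H₁ (x - z).1 = H₁ x.1 := H_eq_of_xcg hXEQ hH₁ hz1.1 hx1.1 he
    have h1 := hB.diam x hx z (hUB z hz)
    have h2 := hB.bad x hx
    have h3 := gg_le_left x
    have h4 := (abs_le.1 (hH₁.near x.1)).1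
    have h5 := hH₂.nonneg (x.2 - z.2)
    have h6 : (x - z).1 = x.1 - z.1 := rfl
    rw [h6] at e1
    linarith
  have hIP : IP τ (kap x) Ξ := by
    intro Ξ' hΞ' k F hF hF0 hFw
    set S := U.filter (fun z ↦ kap (x - z) ∈ Ξ') with hS
    have hSc : S.card = Ξ'.card := by
      have h1 : S.image (fun z ↦ kap (x - z)) = Ξ' := by
        ext p
        simp only [hS, Finset.mem_image, Finset.mem_filter]
        constructor
        · rintro ⟨z, ⟨-, hz⟩, rfl⟩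
          exact hz
        · intro hp
          obtain ⟨z, hz, rfl⟩ := Finset.mem_image.1 (hΞ' hp)
          exact ⟨z, ⟨hz, hp⟩, rfl⟩
      rw [← h1, Finset.card_image_of_injOn]
      exact hUinj.mono fun z hz ↦ (Finset.mem_filter.1 hz).1
    have hScle : S.card ≤ (t₀ + 1) * R2 := (Finset.card_filter_le _ _).trans hUcard
    rcases le_or_gt k (⌈τ * ((t₀ + 1 : ℕ) * (R2 : ℕ))⌉₊) with hk | hk
    · have hx5 : hh x ≤ 5 * T := by
        have h1 := hhle x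
        have h2 := hB.size x hx
        linarith
      have h := hM T hT2 x S (aff_of_nt (hB.nt x hx)) hx5 hScle
        (fun z hz ↦ by
          have hzU := (Finset.mem_filter.1 hz).1
          refine ⟨aff_of_nt (hB.nt z (hUB z hzU)), aff_of_nt (hUn z hzU), ?_, hB.bad z (hUB z hzU)⟩
          have h1 := hhle (x - z)
          have h2 := hB.diam x hx z (hUB z hzU)
          have h6 : (x - z).1 = x.1 - z.1 := rfl
          have h7 : (x - z).2 = x.2 - z.2 := rfl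
          rw [h6, h7] at h1
          linarith)
        (fun z hz z' hz' ↦ by
          have hzU := (Finset.mem_filter.1 hz).1
          have hzU' := (Finset.mem_filter.1 hz').1
          have h1 := hhle (z - z')
          have h2 := hB.diam z (hUB z hzU) z' (hUB z' hzU')
          have h6 : (z - z').1 = z.1 - z'.1 := rfl
          have h7 : (z - z').2 = z.2 - z'.2 := rfl
          rw [h6, h7] at h1
          linarith) k hk F hF (fun z hz ↦ hF0 _ (Finset.mem_filter.1 hz).2) hFw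
      rw [hSc] at h
      have h1 : τ * (Ξ'.card : ℝ) ≤ d / 12 * (Ξ'.card : ℝ) :=
        mul_le_mul_of_nonneg_right (min_le_right _ _) (Nat.cast_nonneg _)
      linarith
    · have h1 : τ * (Ξ'.card : ℝ) ≤ τ * ((t₀ + 1 : ℕ) * (R2 : ℕ)) := by
        refine mul_le_mul_of_nonneg_left ?_ hτ0.le
        rw [← hSc]
        exact_mod_cast hScle
      have h2 := Nat.le_ceil (τ * ((t₀ + 1 : ℕ) * (R2 : ℕ)))
      have h3 : ((⌈τ * ((t₀ + 1 : ℕ) * (R2 : ℕ))⌉₊ : ℕ) : ℝ) ≤ (k : ℝ) := by exact_mod_cast hk.le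
      linarith
  obtain ⟨P, hPc, hP, hPe0⟩ := hST' K (kap x) Ξ hw hIP
  obtain ⟨E, hEc, hE⟩ : ∃ E : Finset (K × K), E.card ≤ R' ∧
      ∀ p ∈ Ξ, (∀ Φ ∈ P, ev Φ p ≠ 0) → p ∈ E :=
    ⟨_, hPe0, fun p hp h ↦ (@Finset.mem_filter _ _ (_) _ _).2 ⟨hp, h⟩⟩
  -- each level
  have hlevel : ∀ j, ∃ Φ ∈ P, M₃ ≤ ((T2 j).filter (fun z ↦ ev Φ (kap (x - z)) = 0)).card := by
    intro j
    by_contra hcon
    push Not at hcon
    have h1 : ((T2 j).filter (fun z ↦ kap (x - z) ∈ E)).card ≤ R' := by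
      refine le_trans ?_ hEc
      rw [← Finset.card_image_of_injOn (s := (T2 j).filter (fun z ↦ kap (x - z) ∈ E))
        (f := fun z ↦ kap (x - z))]
      · refine Finset.card_le_card fun p hp ↦ ?_
        obtain ⟨z, hz, rfl⟩ := Finset.mem_image.1 hp
        exact (Finset.mem_filter.1 hz).2
      · exact hUinj.mono fun z hz ↦ (hUmem z).2 ⟨j, (Finset.mem_filter.1 hz).1⟩
    have h2 : T2 j ⊆ (T2 j).filter (fun z ↦ kap (x - z) ∈ E) ∪
        P.biUnion (fun Φ ↦ (T2 j).filter (fun z ↦ ev Φ (kap (x - z)) = 0)) := by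
      intro z hz
      by_cases h : ∀ Φ ∈ P, ev Φ (kap (x - z)) ≠ 0
      · exact Finset.mem_union_left _ (Finset.mem_filter.2 ⟨hz,
          hE _ (Finset.mem_image.2 ⟨z, (hUmem z).2 ⟨j, hz⟩, rfl⟩) h⟩)
      · push Not at h
        obtain ⟨Φ, hΦ, h0⟩ := h
        exact Finset.mem_union_right _ (Finset.mem_biUnion.2 ⟨Φ, hΦ, Finset.mem_filter.2 ⟨hz, h0⟩⟩)
    have h3 : (P.biUnion (fun Φ ↦ (T2 j).filter (fun z ↦ ev Φ (kap (x - z)) = 0))).card ≤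
        t₀ * M₃ := by
      refine Finset.card_biUnion_le.trans ?_
      refine (Finset.sum_le_card_nsmul P _ M₃ fun Φ hΦ ↦ (hcon Φ hΦ).le).trans ?_
      rw [smul_eq_mul]
      exact Nat.mul_le_mul_right _ hPc
    have h4 := (Finset.card_le_card h2).trans (Finset.card_union_le _ _)
    rw [hT2c j] at h4
    omega
  choose Ph hPh hPhM using hlevel
  obtain ⟨i, -, j, -, hne, hij⟩ := Finset.exists_ne_map_eq_of_card_lt_of_maps_to
    (s := (Finset.univ : Finset (Fin (t₀ + 1)))) (t := P) (by simpa using Nat.lt_succ_of_le hPc)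
    (f := Ph) (fun j _ ↦ hPh j)
  have key : ∀ i j : Fin (t₀ + 1), i < j → Ph i = Ph j →
      ∃ (i j : Fin (t₀ + 1)) (S S' : Finset (W₁.Point × W₂.Point)) (Φ : K[X][Y]), i < j ∧ S ⊆ Tc i ∧
      S' ⊆ Tc j ∧ M₃ ≤ S.card ∧ M₃ ≤ S'.card ∧ Irreducible Φ ∧ BD m Φ ∧
      (∀ z ∈ S, NT (x - z) ∧ ev Φ (kap (x - z)) = 0) ∧
      (∀ z ∈ S', NT (x - z) ∧ ev Φ (kap (x - z)) = 0) ∧
      (∀ z ∈ S, ∀ z' ∈ S, z ≠ z' → NT (z - z') ∧ kap (x - z) ≠ kap (x - z')) ∧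
      (∀ z ∈ S', ∀ z' ∈ S', z ≠ z' → NT (z - z') ∧ kap (x - z) ≠ kap (x - z')) := by
    intro i j hlt he
    refine ⟨i, j, (T2 i).filter (fun z ↦ ev (Ph i) (kap (x - z)) = 0),
      (T2 j).filter (fun z ↦ ev (Ph i) (kap (x - z)) = 0), Ph i, hlt,
      (Finset.filter_subset _ _).trans (hT2s i), (Finset.filter_subset _ _).trans (hT2s j),
      hPhM i, ?_, (hP _ (hPh i)).1, (hP _ (hPh i)).2.1, ?_, ?_, ?_, ?_⟩
    · rw [he]
      exact hPhM j
    · intro z hz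
      rw [Finset.mem_filter] at hz
      exact ⟨hT2n i z hz.1, hz.2⟩
    · intro z hz
      rw [Finset.mem_filter] at hz
      exact ⟨hT2n j z hz.1, hz.2⟩
    · intro z hz z' hz' hne
      exact hT2d i z (Finset.mem_filter.1 hz).1 z' (Finset.mem_filter.1 hz').1 hne
    · intro z hz z' hz' hne
      exact hT2d j z (Finset.mem_filter.1 hz).1 z' (Finset.mem_filter.1 hz').1 hne
  rcases lt_or_gt_of_ne hne with h | h
  · exact key i j h hij
  · exact key j i h hij.symm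

theorem crvg_of : MI → ST → THINg → GP → XEQ → CRVg := by
  intro hMI hST hTH hP hX K _ _ _ W₁ W₂ H₁ H₂ c₀ e₁ e₂ hH₁ hH₂ d hd
  obtain ⟨m, t, hgeo⟩ := geog_of hMI hST hTH hX K W₁ W₂ H₁ H₂ c₀ e₁ e₂ hH₁ hH₂ d hd
  obtain ⟨C, hC0, hgp⟩ := hP K W₁ W₂ m
  refine ⟨m, t, fun q => ?_⟩
  obtain ⟨ε, hε, T₀, R1, hR1, hT⟩ := hgeo (max (2 * m ^ 3 + 1) (max q 3))
  have hc : 0 ≤ c₀ := (abs_nonneg _).trans (hH₁.near 0)
  set A : ℝ := 2 * C + C * (4 * c₀ + 1) + 2 * c₀ with hA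
  have hA0 : 0 ≤ A := by rw [hA]; positivity
  refine ⟨ε, hε, T₀, R1, A + 2, A + 2, hR1, by linarith, by linarith, ?_⟩
  intro T hTT B hB x Tc hch
  obtain ⟨i, j, S, S', Φ, hij, hS, hS', hcS, hcS', hirr, hBD, hz, hz', hd1, hd2⟩ :=
    hT T hTT B hB (A + 2) (A + 2) (by linarith) (by linarith) x Tc hch
  have hn : ∀ z : W₁.Point × W₂.Point, hh z ≤ H₁ z.1 + H₂ z.2 + 2 * c₀ ∧
      H₁ z.1 + H₂ z.2 ≤ hh z + 2 * c₀ := by
    intro z
    have h1 := abs_le.1 (hH₁.near z.1)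
    have h2 := abs_le.1 (hH₂.near z.2)
    have h3 : hh z = hx z.1 + hx z.2 := rfl
    constructor <;> linarith [h1.1, h1.2, h2.1, h2.2]
  have hnn : ∀ z : W₁.Point × W₂.Point, 0 ≤ H₁ z.1 + H₂ z.2 := fun z =>
    add_nonneg (hH₁.nonneg _) (hH₂.nonneg _)
  -- squares of the norm inequalities
  have hsq : ∀ y z : W₁.Point × W₂.Point,
      (A + 2) * √(H₁ y.1 + H₂ y.2) ≤ √(H₁ z.1 + H₂ z.2) →
      (A + 2) ^ 2 * (H₁ y.1 + H₂ y.2) ≤ H₁ z.1 + H₂ z.2 := by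
    intro y z h
    have h1 := mul_self_le_mul_self (by positivity) h
    rw [Real.mul_self_sqrt (hnn z)] at h1
    have h2 := Real.mul_self_sqrt (hnn y)
    calc (A + 2) ^ 2 * (H₁ y.1 + H₂ y.2)
        = (A + 2) ^ 2 * (√(H₁ y.1 + H₂ y.2) * √(H₁ y.1 + H₂ y.2)) := by rw [h2]
      _ = (A + 2) * √(H₁ y.1 + H₂ y.2) * ((A + 2) * √(H₁ y.1 + H₂ y.2)) := by ring
      _ ≤ _ := h1
  have hstab : ∀ z ∈ S', ∀ z' ∈ S', z ≠ z' → NT (z - z') ∧
      Φ ∣ Tr W₁ W₂ m Φ (xc (z - z').1) (xc (z - z').2) := by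
    intro z hzS z' hzS' hne
    refine ⟨(hd2 z hzS z' hzS' hne).1, ?_⟩
    by_contra hnd
    set N2 : ℝ := H₁ (x - z).1 + H₂ (x - z).2 with hN2
    have hκ2 : (0 : ℝ) < (A + 2) ^ 2 := by positivity
    -- the points of `S`
    have hSb : ∀ y ∈ S, (A + 2) ^ 2 * (H₁ (x - y).1 + H₂ (x - y).2) ≤ N2 := fun y hy =>
      hsq _ _ (hch.sep i j hij y (hS hy) z (hS' hzS))
    set Hb : ℝ := N2 / (A + 2) ^ 2 + 2 * c₀ with hHb
    have hHb0 : 0 ≤ Hb := by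
      have := hnn (x - z)
      positivity
    classical
    have hcard : (S.image fun y => kap (x - y)).card = S.card :=
      Finset.card_image_of_injOn fun y hy y' hy' h => by
        by_contra hyy
        exact (hd1 y hy y' hy' hyy).2 h
    have hgp' := hgp Φ hirr hBD (S.image fun y => kap (x - y)) Hb hHb0 ?_ ?_ (x - z) (z - z')
      (NT.aff (hz' z hzS).1) (NT.aff (hd2 z hzS z' hzS' hne).1)
      (by rw [sub_add_sub_cancel]; exact NT.aff (hz' z' hzS').1) (hz' z hzS).2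
      (by rw [sub_add_sub_cancel]; exact (hz' z' hzS').2) hnd
    · have h1 := (hn (x - z)).2
      have h2 := (hn (z - z')).1
      have hV := hsq _ _ (hch.clust j z (hS' hzS) z' (hS' hzS') z (hS' hzS))
      have hK : (A + 2) ^ 2 ≤ N2 := by
        have h3 := hch.far j z (hS' hzS)
        have h4 := mul_self_le_mul_self (by positivity) h3
        rw [Real.mul_self_sqrt (hnn (x - z))] at h4
        calc (A + 2) ^ 2 = (A + 2) * (A + 2) := by ring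
          _ ≤ _ := h4
      have hL : (A + 2) ^ 2 * (N2 / (A + 2) ^ 2) ≤ N2 := by
        rw [mul_div_cancel₀ _ hκ2.ne']
      refine arith (N2 := N2) (L2 := N2 / (A + 2) ^ 2) (V2 := H₁ (z - z').1 + H₂ (z - z').2) hC0 hc hA
        rfl hL hV hK ?_
      have h5 : C * (Hb + hh (z - z') + 1) ≤
          C * (N2 / (A + 2) ^ 2 + 2 * c₀ + (H₁ (z - z').1 + H₂ (z - z').2 + 2 * c₀) + 1) :=
        mul_le_mul_of_nonneg_left (by rw [hHb]; linarith) hC0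
      linarith
    · intro p hp
      obtain ⟨y, hy, rfl⟩ := Finset.mem_image.1 hp
      refine ⟨?_, (hz y hy).2⟩
      have h1 := (hn (x - y)).1
      have h2 := hSb y hy
      have h3 : H₁ (x - y).1 + H₂ (x - y).2 ≤ N2 / (A + 2) ^ 2 := by
        rw [le_div_iff₀ hκ2]; linarith
      have h4 : hh (x - y) = logHeight₁ (kap (x - y)).1 + logHeight₁ (kap (x - y)).2 := rfl
      rw [← h4, hHb]
      linarith
    · rw [hcard]
      have := (le_max_left (2 * m ^ 3 + 1) (max q 3)).trans hcS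
      omega
  have h3 : 3 ≤ S'.card := ((le_max_right q 3).trans (le_max_right _ _)).trans hcS'
  obtain ⟨s, hs, hs3⟩ := Finset.exists_subset_card_eq h3
  obtain ⟨z₁, z₂, z₃, h12, h13, h23, rfl⟩ := Finset.card_eq_three.1 hs3
  have m1 : z₁ ∈ S' := hs (by simp)
  have m2 : z₂ ∈ S' := hs (by simp)
  have m3 : z₃ ∈ S' := hs (by simp)
  have hne1 : ∀ z z' : W₁.Point × W₂.Point, NT (z - z') → (x - z).1 ≠ (x - z').1 := by
    intro z z' h h0
    refine (NT.aff h).1 ?_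
    have h1 : x.1 - z.1 = x.1 - z'.1 := h0
    have h2 : z.1 = z'.1 := sub_right_injective h1
    change z.1 - z'.1 = 0
    rw [h2, sub_self]
  have hne2 : ∀ z z' : W₁.Point × W₂.Point, NT (z - z') → (x - z).2 ≠ (x - z').2 := by
    intro z z' h h0
    refine (NT.aff h).2 ?_
    have h1 : x.2 - z.2 = x.2 - z'.2 := h0
    have h2 : z.2 = z'.2 := sub_right_injective h1
    change z.2 - z'.2 = 0
    rw [h2, sub_self]
  refine ⟨S', Φ, hS'.trans (hch.sub j), ((le_max_left q 3).trans (le_max_right _ _)).trans hcS', hirr,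
    hBD, ⟨?_, ?_⟩, hstab⟩
  · by_contra h0
    have h0' : Φ.natDegree = 0 := by omega
    exact three hX (NT.aff (hz' z₁ m1).1).1 (NT.aff (hz' z₂ m2).1).1 (NT.aff (hz' z₃ m3).1).1
      (eq_fst hirr h0' (hz' z₁ m1).2 (hz' z₂ m2).2) (eq_fst hirr h0' (hz' z₁ m1).2 (hz' z₃ m3).2)
      (hne1 _ _ (hd2 z₁ m1 z₂ m2 h12).1) (hne1 _ _ (hd2 z₁ m1 z₃ m3 h13).1)
      (hne1 _ _ (hd2 z₂ m2 z₃ m3 h23).1)
  · by_contra h0
    have h0' : ∀ j, (Φ.coeff j).natDegree = 0 := by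
      intro j
      by_contra h
      exact h0 ⟨j, by omega⟩
    exact three hX (NT.aff (hz' z₁ m1).1).2 (NT.aff (hz' z₂ m2).1).2 (NT.aff (hz' z₃ m3).1).2
      (eq_snd hirr h0' (hz' z₁ m1).2 (hz' z₂ m2).2) (eq_snd hirr h0' (hz' z₁ m1).2 (hz' z₃ m3).2)
      (hne2 _ _ (hd2 z₁ m1 z₂ m2 h12).1) (hne2 _ _ (hd2 z₁ m1 z₃ m3 h13).1)
      (hne2 _ _ (hd2 z₂ m2 z₃ m3 h23).1)

end

end Pool.Agent.Helper59.BL
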